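import Pool.Agent.W977.LG_Op

/-!
# The end of the first upward swing (S_B1)
-/

open Set MeasureTheory Pool.Agent.W550.LG

namespace Pool.Agent.W977.LG

theorem core (hrep : S_REP) (hT2 : S_T2) {s0 b : ℝ} {lam : ℝ → ℝ} (hlam : Continuous lam)
    (hlt : s0 < b) (hdel : b - s0 ≤ 1 / 10) (hpos : ∀ s ∈ Icc s0 b, 0 ≤ lam s) {C K t : ℝ}
    (ht : 1 ≤ t) (hC : 1 ≤ C) (hK : ∀ s ∈ Icc s0 b, lam s ≤ K)
    (h2 : C * K / t ≤ 1 / 1000) {k c a th : ℝ → ℝ} (P : Pert t C lam k c a th s0 b)
    (L : ℝ → ℝ) (hL : ∀ s, HasDerivAt L (t * (lam s * k s)) s)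
    (hLm : ∀ r s, s0 ≤ r → r ≤ s → s ≤ b → L r ≤ L s) :
    (∀ s ∈ Icc s0 b, |c s - 1 + T L s0 1 s| ≤ 1 / 50 * T L s0 1 s) ∧
      |a b + J L s0 1 b| ≤ 1 / 50 * J L s0 1 b := by
  have hLc : Continuous L := continuous_iff_continuousAt.2 fun s => (hL s).continuousAt
  have h1c : Continuous (1 : ℝ → ℝ) := continuous_const
  have hthc := P.th_cont
  have hcon : ContinuousOn c (Icc s0 b) := fun s hs => (P.dc s hs).continuousAt.continuousWithinAt
  set cc : ℝ → ℝ := fun s => c (max s0 (min b s)) with hcc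
  have hccc : Continuous cc := by
    apply hcon.comp_continuous (by fun_prop)
    intro x
    exact ⟨le_max_left _ _, max_le hlt.le (min_le_left _ _)⟩
  have hcce : ∀ s ∈ Icc s0 b, cc s = c s := by
    intro s hs
    simp only [hcc]
    rw [min_eq_right hs.2, max_eq_right hs.1]
  set U : ℝ → ℝ := T L s0 1 with hU
  have hUc : Continuous U := T_cont s0 hLc h1c
  have hJ1 : ∀ s, s0 ≤ s → 0 ≤ J L s0 1 s := fun s hs => J_nonneg hs (fun r _ => zero_le_one)
  have hU0 : ∀ s, s0 ≤ s → 0 ≤ U s := fun s hs => T_nonneg hs (fun r _ => zero_le_one)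
  have hUm : ∀ r s, s0 ≤ r → r ≤ s → U r ≤ U s := by
    intro r s hr hrs
    have e : U s = U r + ∫ σ in r..s, J L s0 1 σ := by
      rw [hU, T_eq, T_eq, intervalIntegral.integral_add_adjacent_intervals]
      · exact (J_cont s0 hLc h1c).intervalIntegrable _ _
      · exact (J_cont s0 hLc h1c).intervalIntegrable _ _
    have e2 : 0 ≤ ∫ σ in r..s, J L s0 1 σ := by
      apply intervalIntegral.integral_nonneg hrs
      intro σ hσ
      exact hJ1 σ (hr.trans hσ.1)
    linarith
  -- the two estimates for the iterates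
  have hd2 : (b - s0) ^ 2 ≤ 1 / 100 := by
    have h0 : 0 ≤ b - s0 := by linarith
    nlinarith
  have hTU : ∀ s ∈ Icc s0 b, T L s0 U s ≤ 1 / 200 * U s := by
    intro s hs
    have h := (hT2 L 0 s0 b hLc le_rfl hlt.le (by simpa using hLm) s hs).1
    rw [Real.exp_zero] at h
    have h0 := hU0 s hs.1
    calc T L s0 U s ≤ 1 / 2 * 1 * (b - s0) ^ 2 * U s := h
      _ ≤ 1 / 200 * U s := by
        apply mul_le_mul_of_nonneg_right _ h0
        linarith
  have hJU : ∀ s ∈ Icc s0 b, J L s0 U s ≤ 1 / 200 * J L s0 1 s := by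
    intro s hs
    have h := (hT2 L 0 s0 b hLc le_rfl hlt.le (by simpa using hLm) s hs).2
    rw [Real.exp_zero] at h
    have h0 := hJ1 s hs.1
    have e : J L s0 1 s = ∫ r in s0..s, Real.exp (L s - L r) := by
      unfold J
      congr 1
      ext r
      simp
    rw [← e] at h
    calc J L s0 U s ≤ 1 / 2 * 1 * (b - s0) ^ 2 * J L s0 1 s := h
      _ ≤ 1 / 200 * J L s0 1 s := by
        apply mul_le_mul_of_nonneg_right _ h0
        linarith
  have hTUc : Continuous (T L s0 U) := T_cont s0 hLc hUc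
  have hTTU : ∀ s ∈ Icc s0 b, T L s0 (T L s0 U) s ≤ 1 / 200 * T L s0 U s := by
    intro s hs
    have h := T_mono (f := T L s0 U) (g := fun r => 1 / 200 * U r) hLc hTUc (by fun_prop) hs.1
      (fun r hr => hTU r ⟨hr.1, hr.2.trans hs.2⟩)
    rwa [T_smul] at h
  have hTU0 : ∀ s, s0 ≤ s → 0 ≤ T L s0 U s := fun s hs => T_nonneg hs (fun r hr => hU0 r hr.1)
  -- the representation
  have hR := hrep (fun s => t * (lam s * k s)) L c a (fun s => c s - th s) s0 b hlt.le
    (by have := P.k_cont; fun_prop) hL (hcon.sub hthc.continuousOn) P.dc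
    (fun s hs => by
      have := P.da s hs
      convert this using 1
      ring) P.a0 P.c0
  have hRc : ∀ s ∈ Icc s0 b, c s = 1 - T L s0 cc s + T L s0 th s := by
    intro s hs
    rw [(hR s hs).1]
    rw [T_congr (g := fun r => cc r - th r) hs.1
      (fun r hr => by rw [hcce r ⟨hr.1, hr.2.trans hs.2⟩]), T_sub s0 s hLc hccc hthc]
    ring
  have hRa : a b = - J L s0 cc b + J L s0 th b := by
    have h := (hR b ⟨hlt.le, le_rfl⟩).2
    rw [h]
    have e : (∫ r in s0..b, Real.exp (L b - L r) * (c r - th r)) =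
      J L s0 (fun r => c r - th r) b := rfl
    rw [e, J_congr (g := fun r => cc r - th r) hlt.le
      (fun r hr => by rw [hcce r hr]), J_sub s0 b hLc hccc hthc]
    ring
  -- the maximum of the quotient
  obtain ⟨x0, hx0, hmax⟩ : ∃ x0 ∈ Icc s0 b, ∀ s ∈ Icc s0 b,
      |cc s| / (1 + U s) ≤ |cc x0| / (1 + U x0) := by
    have hco : ContinuousOn (fun s => |cc s| / (1 + U s)) (Icc s0 b) := by
      apply ContinuousOn.div
      · exact hccc.abs.continuousOn
      · exact (continuous_const.add hUc).continuousOn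
      · intro s hs
        have := hU0 s hs.1
        positivity
    obtain ⟨x0, hx0, hm⟩ := isCompact_Icc.exists_isMaxOn ⟨s0, left_mem_Icc.2 hlt.le⟩ hco
    exact ⟨x0, hx0, fun s hs => hm hs⟩
  set M := |cc x0| / (1 + U x0) with hM
  have hM0 : 0 ≤ M := by
    have := hU0 x0 hx0.1
    positivity
  have hcM : ∀ s ∈ Icc s0 b, |cc s| ≤ M * (1 + U s) := by
    intro s hs
    have h0 := hU0 s hs.1
    exact (div_le_iff₀ (by linarith)).1 (hmax s hs)
  have hthM : ∀ s ∈ Icc s0 b, |th s| ≤ 1 / 1000 * M * (1 + U s) := by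
    intro s hs
    have h := P.th_le s hs (M * (1 + U s)) (fun r hr => by
      rw [← hcce r ⟨hr.1, hr.2.trans hs.2⟩]
      refine (hcM r ⟨hr.1, hr.2.trans hs.2⟩).trans ?_
      exact mul_le_mul_of_nonneg_left (by linarith [hUm r s hr.1 hr.2]) hM0)
    refine h.trans ?_
    have h0 := hU0 s hs.1
    rw [abs_of_nonneg (hpos s hs)]
    have h3 : C / t * lam s ≤ 1 / 1000 := by
      refine le_trans ?_ h2
      rw [div_mul_eq_mul_div]
      have : C * lam s ≤ C * K := mul_le_mul_of_nonneg_left (hK s hs) (by linarith)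
      gcongr
    have h4 : 0 ≤ M * (1 + U s) := by positivity
    nlinarith
  -- bounds for the operators
  have hUone : Continuous fun r => M * (1 + U r) := by fun_prop
  have hUone2 : Continuous fun r => 1 / 1000 * M * (1 + U r) := by fun_prop
  have hTone : ∀ s, T L s0 (fun r => 1 + U r) s = U s + T L s0 U s := by
    intro s
    exact T_add (f := 1) s0 s hLc h1c hUc
  have hJone : ∀ s, J L s0 (fun r => 1 + U r) s = J L s0 1 s + J L s0 U s := by
    intro s
    exact J_add (f := 1) s0 s hLc h1c hUc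
  have hTcc : ∀ s ∈ Icc s0 b, |T L s0 cc s| ≤ M * (U s + T L s0 U s) := by
    intro s hs
    have h := T_abs_le (f := cc) (g := fun r => M * (1 + U r)) hLc hccc hUone hs.1
      (fun r hr => hcM r ⟨hr.1, hr.2.trans hs.2⟩)
    rwa [T_smul, hTone] at h
  have hTth : ∀ s ∈ Icc s0 b, |T L s0 th s| ≤ 1 / 1000 * M * (U s + T L s0 U s) := by
    intro s hs
    have h := T_abs_le (f := th) (g := fun r => 1 / 1000 * M * (1 + U r)) hLc hthc hUone2 hs.1
      (fun r hr => hthM r ⟨hr.1, hr.2.trans hs.2⟩)
    rwa [T_smul, hTone] at h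
  have hTccc : Continuous (T L s0 cc) := T_cont s0 hLc hccc
  have hTthc : Continuous (T L s0 th) := T_cont s0 hLc hthc
  have hT2e : ∀ s, T L s0 (fun r => U r + T L s0 U r) s = T L s0 U s + T L s0 (T L s0 U) s := by
    intro s
    exact T_add s0 s hLc hUc hTUc
  have hTTcc : ∀ s ∈ Icc s0 b, |T L s0 (T L s0 cc) s| ≤
      M * (T L s0 U s + T L s0 (T L s0 U) s) := by
    intro s hs
    have h := T_abs_le (f := T L s0 cc) (g := fun r => M * (U r + T L s0 U r)) hLc hTccc
      (by fun_prop) hs.1 (fun r hr => hTcc r ⟨hr.1, hr.2.trans hs.2⟩)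
    rwa [T_smul, hT2e] at h
  have hTTth : ∀ s ∈ Icc s0 b, |T L s0 (T L s0 th) s| ≤
      1 / 1000 * M * (T L s0 U s + T L s0 (T L s0 U) s) := by
    intro s hs
    have h := T_abs_le (f := T L s0 th) (g := fun r => 1 / 1000 * M * (U r + T L s0 U r)) hLc
      hTthc (by fun_prop) hs.1 (fun r hr => hTth r ⟨hr.1, hr.2.trans hs.2⟩)
    rwa [T_smul, hT2e] at h
  have hexp : ∀ s ∈ Icc s0 b, c s - 1 + U s =
      T L s0 (T L s0 cc) s - T L s0 (T L s0 th) s + T L s0 th s := by
    intro s hs
    have e1 : T L s0 cc s = T L s0 (fun r => (1 - T L s0 cc r) + T L s0 th r) s := by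
      apply T_congr hs.1
      intro r hr
      rw [hcce r ⟨hr.1, hr.2.trans hs.2⟩]
      exact hRc r ⟨hr.1, hr.2.trans hs.2⟩
    have e2 : T L s0 (fun r => (1 - T L s0 cc r) + T L s0 th r) s =
        U s - T L s0 (T L s0 cc) s + T L s0 (T L s0 th) s := by
      rw [T_add (f := fun r => 1 - T L s0 cc r) s0 s hLc (by fun_prop) hTthc]
      rw [T_sub (f := fun _ => (1 : ℝ)) s0 s hLc continuous_const hTccc]
      rfl
    rw [hRc s hs, e1, e2]
    ring
  have hmain : ∀ s ∈ Icc s0 b, |c s - 1 + U s| ≤ 1 / 100 * M * U s := by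
    intro s hs
    rw [hexp s hs]
    have a1 := abs_le.1 (hTTcc s hs)
    have a2 := abs_le.1 (hTTth s hs)
    have a3 := abs_le.1 (hTth s hs)
    have b1 := hTU s hs
    have b2 := hTTU s hs
    have b3 := hU0 s hs.1
    have b4 : T L s0 U s + T L s0 (T L s0 U) s ≤ 6 / 1000 * U s := by linarith
    have b5 : U s + T L s0 U s ≤ 2 * U s := by linarith
    have c1 : M * (T L s0 U s + T L s0 (T L s0 U) s) ≤ M * (6 / 1000 * U s) :=
      mul_le_mul_of_nonneg_left b4 hM0
    have c2 : M * (U s + T L s0 U s) ≤ M * (2 * U s) := mul_le_mul_of_nonneg_left b5 hM0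
    have c3 : 0 ≤ M * U s := mul_nonneg hM0 b3
    rw [abs_le]
    constructor <;> nlinarith
  have hM1 : M ≤ 102 / 100 := by
    have h := hmain x0 hx0
    have h0 := hU0 x0 hx0.1
    have e : |cc x0| = M * (1 + U x0) := by
      rw [hM]
      field_simp
    rw [hcce x0 hx0] at e
    have h3 : |c x0| ≤ 1 + U x0 + 1 / 100 * M * U x0 := by
      have h4 := abs_le.1 h
      rw [abs_le]
      constructor <;> nlinarith [mul_nonneg hM0 h0]
    rw [e] at h3
    by_contra hcon2
    push Not at hcon2
    nlinarith [mul_nonneg hM0 h0]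
  have hmain2 : ∀ s ∈ Icc s0 b, |c s - 1 + U s| ≤ 102 / 10000 * U s := by
    intro s hs
    refine (hmain s hs).trans ?_
    have := hU0 s hs.1
    nlinarith
  refine ⟨fun s hs => (hmain2 s hs).trans ?_, ?_⟩
  · have := hU0 s hs.1
    linarith
  · have hbm : b ∈ Icc s0 b := ⟨hlt.le, le_rfl⟩
    have e1 : a b + J L s0 1 b = J L s0 (fun r => 1 - cc r) b + J L s0 th b := by
      rw [J_sub (f := fun _ => (1 : ℝ)) s0 b hLc continuous_const hccc, hRa]
      have : J L s0 (fun _ => (1 : ℝ)) b = J L s0 1 b := rfl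
      rw [this]
      ring
    have e2 : |J L s0 (fun r => 1 - cc r) b| ≤ 102 / 100 * J L s0 U b := by
      have h := J_abs_le (f := fun r => 1 - cc r) (g := fun r => 102 / 100 * U r) hLc
        (by fun_prop) (by fun_prop) hlt.le (fun r hr => by
          rw [hcce r hr]
          have h3 := abs_le.1 (hmain2 r hr)
          have h4 := hU0 r hr.1
          rw [abs_le]
          constructor <;> linarith)
      rwa [J_smul] at h
    have e3 : |J L s0 th b| ≤ 1 / 1000 * M * (J L s0 1 b + J L s0 U b) := by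
      have h := J_abs_le (f := th) (g := fun r => 1 / 1000 * M * (1 + U r)) hLc
        (by fun_prop) (by fun_prop) hlt.le hthM
      rwa [J_smul, hJone] at h
    have e4 := hJU b hbm
    have e5 := hJ1 b hlt.le
    have e6 : 0 ≤ J L s0 U b := J_nonneg hlt.le (fun r hr => hU0 r hr.1)
    rw [e1]
    refine (abs_add_le _ _).trans ?_
    have e7 : 1 / 1000 * M * (J L s0 1 b + J L s0 U b) ≤
        1 / 1000 * (102 / 100) * (J L s0 1 b + J L s0 U b) := by
      apply mul_le_mul_of_nonneg_right _ (by linarith)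
      linarith
    linarith


/-- Lower bounds for the first iterate and for its derivative. -/
theorem lower {s0 b : ℝ} {lam Lam : ℝ → ℝ} (hLam : ∀ s, HasDerivAt Lam (lam s) s)
    (hlt : s0 < b) (hpos : ∀ s ∈ Icc s0 b, 0 ≤ lam s) {K2 t η s' : ℝ}
    (ht : 1 ≤ t) (hK2 : 0 ≤ K2) (hl2 : ∀ s ∈ Icc s0 b, lam s ≤ K2 * (b - s)) {k : ℝ → ℝ}
    (hk1 : ∀ s, k s ≤ 1) (hk2 : ∀ s ∈ Icc s0 b, 1 / 2 ≤ k s)
    (hs' : s0 < s') (hs'b : s' ≤ b) (hη : Lam s' + η / 2 ≤ Lam b)
    (L : ℝ → ℝ) (hL : ∀ s, HasDerivAt L (t * (lam s * k s)) s)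
    (hLm : ∀ r s, s0 ≤ r → r ≤ s → s ≤ b → L r ≤ L s)
    (hx : 1 / Real.sqrt t ≤ b - s0) (h5 : 2 ≤ (s' - s0) * Real.exp (t * η / 8))
    (h6 : Real.exp (K2 / 2) ≤ Real.exp (t * η / 8)) :
    2 * Real.exp (t * η / 8) ≤ J L s0 1 b ∧ T L s0 1 b ≤ (b - s0) * J L s0 1 b ∧
      1 / Real.sqrt t * (1 / 2 * Real.exp (-(K2 / 2))) * J L s0 1 b ≤ T L s0 1 b := by
  have hLc : Continuous L := continuous_iff_continuousAt.2 fun s => (hL s).continuousAt
  have h1c : Continuous (1 : ℝ → ℝ) := continuous_const
  have hJc := J_cont s0 hLc h1c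
  have hJe : ∀ s, J L s0 1 s = ∫ r in s0..s, Real.exp (L s - L r) := by
    intro s
    unfold J
    congr 1
    ext r
    simp
  have hJ1 : ∀ s, s0 ≤ s → 0 ≤ J L s0 1 s := fun s hs => J_nonneg hs (fun r _ => zero_le_one)
  have hJm : ∀ s ∈ Icc s0 b, J L s0 1 s ≤ J L s0 1 b := by
    intro s hs
    rw [hJe, hJe]
    have e : (∫ r in s0..b, Real.exp (L b - L r)) =
        (∫ r in s0..s, Real.exp (L b - L r)) + ∫ r in s..b, Real.exp (L b - L r) := by
      rw [intervalIntegral.integral_add_adjacent_intervals]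
      · exact Continuous.intervalIntegrable (by fun_prop) _ _
      · exact Continuous.intervalIntegrable (by fun_prop) _ _
    have e2 : 0 ≤ ∫ r in s..b, Real.exp (L b - L r) :=
      intervalIntegral.integral_nonneg hs.2 (fun r _ => (Real.exp_pos _).le)
    have e3 : (∫ r in s0..s, Real.exp (L s - L r)) ≤ ∫ r in s0..s, Real.exp (L b - L r) := by
      apply intervalIntegral.integral_mono_on hs.1
      · exact Continuous.intervalIntegrable (by fun_prop) _ _
      · exact Continuous.intervalIntegrable (by fun_prop) _ _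
      · intro r _
        have := hLm s b hs.1 hs.2 le_rfl
        exact Real.exp_le_exp.2 (by linarith)
    linarith
  -- comparison with `Lam`
  have hlow : ∀ r ∈ Icc s0 b, t / 2 * (Lam b - Lam r) ≤ L b - L r := by
    intro r hr
    have hm : MonotoneOn (fun s => L s - t / 2 * Lam s) (Icc s0 b) := by
      apply monotoneOn_of_hasDerivWithinAt_nonneg (convex_Icc s0 b)
        (f' := fun s => t * (lam s * k s) - t / 2 * lam s)
      · intro s _
        exact ((hL s).sub ((hLam s).const_mul (t / 2))).continuousAt.continuousWithinAt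
      · intro s _
        exact ((hL s).sub ((hLam s).const_mul (t / 2))).hasDerivWithinAt
      · intro s hs
        rw [interior_Icc] at hs
        have hs2 : s ∈ Icc s0 b := ⟨hs.1.le, hs.2.le⟩
        have a1 := hpos s hs2
        have a2 := hk2 s hs2
        have : t * (lam s * k s) - t / 2 * lam s = t * (lam s * (k s - 1 / 2)) := by ring
        rw [this]
        have : 0 ≤ k s - 1 / 2 := by linarith
        positivity
    have := hm hr (right_mem_Icc.2 hlt.le) hr.2
    simp only at this
    linarith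
  have hupp : ∀ r ∈ Icc s0 b, L b - L r ≤ t * K2 * (b - r) ^ 2 / 2 := by
    intro r hr
    have hd : ∀ s, HasDerivAt (fun s => L s + t * K2 * (b - s) ^ 2 / 2)
        (t * (lam s * k s) + t * K2 * (2 * (b - s) ^ (2 - 1) * (-1)) / 2) s := by
      intro s
      have h1 : HasDerivAt (fun s : ℝ => b - s) (-1) s := by
        simpa using (hasDerivAt_id s).const_sub b
      have h2 := ((h1.pow 2).const_mul (t * K2)).div_const 2
      exact (hL s).add (by simpa using h2)
    have hm : AntitoneOn (fun s => L s + t * K2 * (b - s) ^ 2 / 2) (Icc s0 b) := by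
      apply antitoneOn_of_hasDerivWithinAt_nonpos (convex_Icc s0 b)
        (f' := fun s => t * (lam s * k s) + t * K2 * (2 * (b - s) ^ (2 - 1) * (-1)) / 2)
      · intro s _
        exact (hd s).continuousAt.continuousWithinAt
      · intro s _
        exact (hd s).hasDerivWithinAt
      · intro s hs
        rw [interior_Icc] at hs
        have hs2 : s ∈ Icc s0 b := ⟨hs.1.le, hs.2.le⟩
        have a1 := hpos s hs2
        have a2 := hk1 s
        have a3 := hl2 s hs2
        have a4 : lam s * k s ≤ K2 * (b - s) := by nlinarith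
        have a5 : t * (lam s * k s) ≤ t * (K2 * (b - s)) :=
          mul_le_mul_of_nonneg_left a4 (by linarith)
        simp only [Nat.add_one_sub_one, pow_one]
        linarith
    have := hm hr (right_mem_Icc.2 hlt.le) hr.2
    simp only [sub_self] at this
    norm_num at this
    linarith
  have hV : 2 * Real.exp (t * η / 8) ≤ J L s0 1 b := by
    rw [hJe]
    have e : (∫ r in s0..b, Real.exp (L b - L r)) =
        (∫ r in s0..s', Real.exp (L b - L r)) + ∫ r in s'..b, Real.exp (L b - L r) := by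
      rw [intervalIntegral.integral_add_adjacent_intervals]
      · exact Continuous.intervalIntegrable (by fun_prop) _ _
      · exact Continuous.intervalIntegrable (by fun_prop) _ _
    have e2 : 0 ≤ ∫ r in s'..b, Real.exp (L b - L r) :=
      intervalIntegral.integral_nonneg hs'b (fun r _ => (Real.exp_pos _).le)
    have e3 : (s' - s0) * Real.exp (t * η / 4) ≤ ∫ r in s0..s', Real.exp (L b - L r) := by
      have : (∫ _ in s0..s', Real.exp (t * η / 4)) = (s' - s0) * Real.exp (t * η / 4) := by
        simp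
      rw [← this]
      apply intervalIntegral.integral_mono_on hs'.le
      · exact Continuous.intervalIntegrable (by fun_prop) _ _
      · exact Continuous.intervalIntegrable (by fun_prop) _ _
      · intro r hr
        apply Real.exp_le_exp.2
        have h7 := hlow s' ⟨hs'.le, hs'b⟩
        have h8 := hLm r s' hr.1 hr.2 hs'b
        have h9 : t / 2 * (η / 2) ≤ t / 2 * (Lam b - Lam s') :=
          mul_le_mul_of_nonneg_left (by linarith) (by linarith)
        linarith
    have e4 : Real.exp (t * η / 4) = Real.exp (t * η / 8) * Real.exp (t * η / 8) := by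
      rw [← Real.exp_add]
      congr 1
      ring
    rw [e4] at e3
    have e5 := Real.exp_pos (t * η / 8)
    rw [e]
    nlinarith
  refine ⟨hV, ?_, ?_⟩
  · rw [T_eq]
    have : (∫ _ in s0..b, J L s0 1 b) = (b - s0) * J L s0 1 b := by simp
    rw [← this]
    apply intervalIntegral.integral_mono_on hlt.le
    · exact hJc.intervalIntegrable _ _
    · exact Continuous.intervalIntegrable (by fun_prop) _ _
    · intro r hr
      exact hJm r hr
  · set x := 1 / Real.sqrt t with hxd
    have hst : 1 ≤ Real.sqrt t := by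
      rw [Real.one_le_sqrt]
      exact ht
    have hx0 : 0 < x := by positivity
    have hx1 : x ≤ 1 := by
      rw [hxd, div_le_one (by linarith)]
      exact hst
    have hx2 : t * x ^ 2 = 1 := by
      rw [hxd, div_pow, Real.sq_sqrt (by linarith)]
      field_simp
    have hE : Real.exp (K2 / 2) * Real.exp (-(K2 / 2)) = 1 := by
      rw [← Real.exp_add]
      simp
    have hEp := Real.exp_pos (K2 / 2)
    have hEp2 := Real.exp_pos (-(K2 / 2))
    have hup2 : ∀ r ∈ Icc (b - x) b, L b - L r ≤ K2 / 2 := by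
      intro r hr
      have h7 := hupp r ⟨by linarith [hr.1], hr.2⟩
      have h8 : (b - r) ^ 2 ≤ x ^ 2 := by
        apply pow_le_pow_left₀
        · linarith [hr.2]
        · linarith [hr.1]
      have h9 : t * K2 * (b - r) ^ 2 ≤ t * K2 * x ^ 2 := by
        apply mul_le_mul_of_nonneg_left h8
        positivity
      have : t * K2 * x ^ 2 = K2 := by
        rw [mul_comm t K2, mul_assoc, hx2, mul_one]
      linarith
    have hJl : ∀ σ ∈ Icc (b - x) b, 1 / 2 * Real.exp (-(K2 / 2)) * J L s0 1 b ≤ J L s0 1 σ := by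
      intro σ hσ
      have hσ0 : s0 ≤ σ := by linarith [hσ.1]
      have e : J L s0 1 b = Real.exp (L b - L σ) * J L s0 1 σ +
          ∫ r in σ..b, Real.exp (L b - L r) := by
        rw [hJe, hJe, ← intervalIntegral.integral_const_mul]
        have : (∫ r in s0..σ, Real.exp (L b - L σ) * Real.exp (L σ - L r)) =
            ∫ r in s0..σ, Real.exp (L b - L r) := by
          congr 1
          ext r
          rw [← Real.exp_add]
          congr 1
          ring
        rw [this, intervalIntegral.integral_add_adjacent_intervals]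
        · exact Continuous.intervalIntegrable (by fun_prop) _ _
        · exact Continuous.intervalIntegrable (by fun_prop) _ _
      have e2 : (∫ r in σ..b, Real.exp (L b - L r)) ≤ Real.exp (K2 / 2) := by
        have h7 : (∫ _ in σ..b, Real.exp (K2 / 2)) = (b - σ) * Real.exp (K2 / 2) := by simp
        have h8 : (∫ r in σ..b, Real.exp (L b - L r)) ≤ ∫ _ in σ..b, Real.exp (K2 / 2) := by
          apply intervalIntegral.integral_mono_on hσ.2
          · exact Continuous.intervalIntegrable (by fun_prop) _ _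
          · exact Continuous.intervalIntegrable (by fun_prop) _ _
          · intro r hr
            exact Real.exp_le_exp.2 (hup2 r ⟨hσ.1.trans hr.1, hr.2⟩)
        rw [h7] at h8
        refine h8.trans ?_
        have : b - σ ≤ 1 := by linarith [hσ.1]
        nlinarith
      have e3 : Real.exp (L b - L σ) ≤ Real.exp (K2 / 2) := Real.exp_le_exp.2 (hup2 σ hσ)
      have e4 := hJ1 σ hσ0
      have e5 : J L s0 1 b ≤ Real.exp (K2 / 2) * J L s0 1 σ + Real.exp (K2 / 2) := by
        rw [e]
        have := mul_le_mul_of_nonneg_right e3 e4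
        linarith
      have e6 : 1 / 2 * J L s0 1 b ≤ Real.exp (K2 / 2) * J L s0 1 σ := by linarith
      calc 1 / 2 * Real.exp (-(K2 / 2)) * J L s0 1 b =
            Real.exp (-(K2 / 2)) * (1 / 2 * J L s0 1 b) := by ring
        _ ≤ Real.exp (-(K2 / 2)) * (Real.exp (K2 / 2) * J L s0 1 σ) :=
            mul_le_mul_of_nonneg_left e6 hEp2.le
        _ = (Real.exp (K2 / 2) * Real.exp (-(K2 / 2))) * J L s0 1 σ := by ring
        _ = J L s0 1 σ := by rw [hE, one_mul]
    rw [T_eq]
    have e : (∫ σ in s0..b, J L s0 1 σ) =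
        (∫ σ in s0..(b - x), J L s0 1 σ) + ∫ σ in (b - x)..b, J L s0 1 σ := by
      rw [intervalIntegral.integral_add_adjacent_intervals]
      · exact hJc.intervalIntegrable _ _
      · exact hJc.intervalIntegrable _ _
    have e2 : 0 ≤ ∫ σ in s0..(b - x), J L s0 1 σ :=
      intervalIntegral.integral_nonneg (by linarith) (fun r hr => hJ1 r hr.1)
    have e3 : x * (1 / 2 * Real.exp (-(K2 / 2)) * J L s0 1 b) ≤
        ∫ σ in (b - x)..b, J L s0 1 σ := by
      have h7 : (∫ _ in (b - x)..b, (1 / 2 * Real.exp (-(K2 / 2)) * J L s0 1 b)) =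
          x * (1 / 2 * Real.exp (-(K2 / 2)) * J L s0 1 b) := by
        rw [intervalIntegral.integral_const, smul_eq_mul]
        ring
      rw [← h7]
      apply intervalIntegral.integral_mono_on (by linarith)
      · exact Continuous.intervalIntegrable (by fun_prop) _ _
      · exact hJc.intervalIntegrable _ _
      · exact hJl
    rw [e]
    linarith

theorem b1 (hrep : S_REP) (hT2 : S_T2) : S_B1 := by
  intro s0 b lam Lam hlam hLam hlt hdel hpos hb0 hup C hC
  have hlc : Continuous lam := hlam.continuous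
  -- bounds for `lam` and its derivative
  obtain ⟨K0, hK0⟩ := isCompact_Icc.exists_bound_of_continuousOn
    (f := lam) (s := Icc s0 b) hlc.continuousOn
  have hdc : Continuous (deriv lam) := hlam.continuous_deriv (by simp)
  obtain ⟨K1, hK1⟩ := isCompact_Icc.exists_bound_of_continuousOn
    (f := deriv lam) (s := Icc s0 b) hdc.continuousOn
  have hbm : b ∈ Icc s0 b := ⟨hlt.le, le_rfl⟩
  have hK1' : 0 ≤ K1 := (norm_nonneg _).trans (hK1 b hbm)
  have hl2 : ∀ s ∈ Icc s0 b, lam s ≤ K1 * (b - s) := by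
    intro s hs
    have h := (convex_Icc s0 b).norm_image_sub_le_of_norm_deriv_le (f := lam) (C := K1)
      (fun x _ => (hlam.differentiable (by simp)).differentiableAt) hK1 hbm hs
    rw [hb0, sub_zero, Real.norm_eq_abs, Real.norm_eq_abs] at h
    have h2 : |s - b| = b - s := by
      rw [abs_sub_comm, abs_of_nonneg (by linarith [hs.2])]
    rw [h2] at h
    exact (le_abs_self _).trans h
  set K := max K0 1 with hKdef
  have hK : ∀ s ∈ Icc s0 b, lam s ≤ K := fun s hs =>
    ((le_abs_self _).trans (hK0 s hs)).trans (le_max_left _ _)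
  set η := Lam b - Lam s0 with hηd
  have hη : 0 < η := by linarith
  -- the point `s'`
  obtain ⟨s', hs', hs'b, hs'η⟩ : ∃ s', s0 < s' ∧ s' ≤ b ∧ Lam s' + η / 2 ≤ Lam b := by
    have hLc : ContinuousAt Lam s0 := (hLam s0).continuousAt
    have h1 : ∀ᶠ s in nhds s0, Lam s < Lam s0 + η / 2 :=
      hLc.eventually (gt_mem_nhds (by linarith))
    have h2 : ∀ᶠ s in nhdsWithin s0 (Ioi s0), Lam s < Lam s0 + η / 2 :=
      h1.filter_mono nhdsWithin_le_nhds
    have h3 : ∀ᶠ s in nhdsWithin s0 (Ioi s0), s ∈ Ioo s0 b := Ioo_mem_nhdsGT hlt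
    obtain ⟨s', h4, h5⟩ := (h2.and h3).exists
    exact ⟨s', h5.1, h5.2.le, by linarith⟩
  set g0 := 1 / 2 * Real.exp (-(K1 / 2)) with hg0
  have hg0p : 0 < g0 := by positivity
  -- conditions on `t`
  have hexp1 : Filter.Tendsto (fun t : ℝ => Real.exp (t * η / 8)) Filter.atTop Filter.atTop := by
    apply Real.tendsto_exp_atTop.comp
    have : (fun t : ℝ => t * η / 8) = fun t => t * (η / 8) := by ext t; ring
    rw [this]
    exact Filter.tendsto_id.atTop_mul_const (by positivity)
  have hexp2 : Filter.Tendsto (fun t : ℝ => Real.exp (t * η / 16)) Filter.atTop Filter.atTop := by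
    apply Real.tendsto_exp_atTop.comp
    have : (fun t : ℝ => t * η / 16) = fun t => t * (η / 16) := by ext t; ring
    rw [this]
    exact Filter.tendsto_id.atTop_mul_const (by positivity)
  have ev : ∀ᶠ t : ℝ in Filter.atTop, 1 ≤ t ∧ 2 * C ≤ t ∧ 1000 * (C * K) ≤ t ∧
      (1 / (b - s0)) ^ 2 ≤ t ∧ 2 / (s' - s0) ≤ Real.exp (t * η / 8) ∧
      Real.exp (K1 / 2) ≤ Real.exp (t * η / 8) ∧ 800 / (g0 * η) ≤ Real.exp (t * η / 16) := by
    filter_upwards [Filter.eventually_ge_atTop 1, Filter.eventually_ge_atTop (2 * C),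
      Filter.eventually_ge_atTop (1000 * (C * K)),
      Filter.eventually_ge_atTop ((1 / (b - s0)) ^ 2),
      hexp1.eventually_ge_atTop (2 / (s' - s0)), hexp1.eventually_ge_atTop (Real.exp (K1 / 2)),
      hexp2.eventually_ge_atTop (800 / (g0 * η))] with t h1 h2 h3 h4 h5 h6 h7
    exact ⟨h1, h2, h3, h4, h5, h6, h7⟩
  obtain ⟨t0, ht0⟩ := Filter.eventually_atTop.1 ev
  refine ⟨max 1 t0, g0 / 2, η / 8, le_max_left _ _, by positivity, by positivity, ?_⟩
  intro t ht k c a th P
  obtain ⟨h1, h2, h3, h4, h5, h6, h7⟩ := ht0 t ((le_max_right _ _).trans ht)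
  have htp : 0 < t := by linarith
  have hCt : C / t ^ 2 ≤ 1 / 2 := by
    rw [div_le_div_iff₀ (by positivity) (by norm_num)]
    nlinarith
  have hCK : C * K / t ≤ 1 / 1000 := by
    rw [div_le_div_iff₀ htp (by norm_num)]
    linarith
  have hk2 : ∀ s ∈ Icc s0 b, 1 / 2 ≤ k s := by
    intro s hs
    have := P.le_k s hs
    linarith
  have hkc := P.k_cont
  have hlk : Continuous fun s => t * (lam s * k s) := by fun_prop
  set L : ℝ → ℝ := fun s => ∫ r in s0..s, t * (lam r * k r) with hLd
  have hL : ∀ s, HasDerivAt L (t * (lam s * k s)) s := fun s =>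
    (hlk.integral_hasStrictDerivAt s0 s).hasDerivAt
  have hLm : ∀ r s, s0 ≤ r → r ≤ s → s ≤ b → L r ≤ L s := by
    intro r s hr hrs hs
    have hm : MonotoneOn L (Icc s0 b) := by
      apply monotoneOn_of_hasDerivWithinAt_nonneg (convex_Icc s0 b)
        (f' := fun s => t * (lam s * k s))
      · intro s _
        exact (hL s).continuousAt.continuousWithinAt
      · intro s _
        exact (hL s).hasDerivWithinAt
      · intro s hs
        rw [interior_Icc] at hs
        have hs2 : s ∈ Icc s0 b := ⟨hs.1.le, hs.2.le⟩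
        have a1 := hpos s hs2
        have a2 := hk2 s hs2
        have : 0 ≤ k s := by linarith
        positivity
    exact hm ⟨hr, hrs.trans hs⟩ ⟨hr.trans hrs, hs⟩ hrs
  obtain ⟨hA, hB⟩ := core hrep hT2 hlc hlt hdel hpos h1 hC hK hCK P L hL hLm
  have hst : 0 < Real.sqrt t := Real.sqrt_pos.2 htp
  have hst1 : 1 ≤ Real.sqrt t := by
    rw [Real.one_le_sqrt]
    exact h1
  have hsts : Real.sqrt t * Real.sqrt t = t := Real.mul_self_sqrt htp.le
  have hx : 1 / Real.sqrt t ≤ b - s0 := by
    have hbs : 0 < b - s0 := by linarith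
    have : 1 / (b - s0) ≤ Real.sqrt t := Real.le_sqrt_of_sq_le h4
    rw [div_le_iff₀ hst]
    rw [div_le_iff₀ hbs] at this
    linarith
  have h5' : 2 ≤ (s' - s0) * Real.exp (t * η / 8) := by
    have : 0 < s' - s0 := by linarith
    rw [div_le_iff₀ this] at h5
    linarith
  obtain ⟨hV, hUV, hVU⟩ := lower hLam hlt hpos h1 hK1' hl2 P.k_le hk2 hs' hs'b hs'η L hL hLm hx
    h5' h6
  set V := J L s0 1 b with hVd
  set U := T L s0 1 b with hUd
  have hE1 : Real.exp (t * η / 8) = Real.exp (t * η / 16) * Real.exp (t * η / 16) := by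
    rw [← Real.exp_add]
    congr 1
    ring
  have hE2 : 50 * Real.sqrt t / g0 ≤ Real.exp (t * η / 8) := by
    have e1 : t * η / 16 ≤ Real.exp (t * η / 16) := by
      have := Real.add_one_le_exp (t * η / 16)
      linarith
    have e2 : 800 / (g0 * η) * (t * η / 16) ≤ Real.exp (t * η / 16) * Real.exp (t * η / 16) :=
      mul_le_mul h7 e1 (by positivity) (Real.exp_pos _).le
    rw [hE1]
    refine le_trans ?_ e2
    have e3 : 800 / (g0 * η) * (t * η / 16) = 50 * t / g0 := by
      field_simp
      ring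
    rw [e3]
    have e4 : Real.sqrt t ≤ t := by nlinarith
    gcongr
  have hVp : 0 < V := lt_of_lt_of_le (by positivity) hV
  have hVU' : g0 * V ≤ Real.sqrt t * U := by
    have : Real.sqrt t * (1 / Real.sqrt t * g0 * V) ≤ Real.sqrt t * U :=
      mul_le_mul_of_nonneg_left hVU hst.le
    have e : Real.sqrt t * (1 / Real.sqrt t * g0 * V) = g0 * V := by
      field_simp
    linarith
  have hU100 : 100 ≤ U := by
    rw [div_le_iff₀ hg0p] at hE2
    have e0 := mul_le_mul_of_nonneg_left hV hg0p.le
    have e1 : 100 * Real.sqrt t ≤ g0 * V := by linarith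
    have e2 : Real.sqrt t * 100 ≤ Real.sqrt t * U := by linarith
    exact le_of_mul_le_mul_left e2 hst
  have hcb := abs_le.1 (hA b hbm)
  have hab := abs_le.1 hB
  have hc1 : c b ≤ 1 - 49 / 50 * U := by linarith [hcb.2]
  have hc2 : 1 - 51 / 50 * U ≤ c b := by linarith [hcb.1]
  have ha1 : a b ≤ - (49 / 50 * V) := by linarith [hab.2]
  have ha2 : - (51 / 50 * V) ≤ a b := by linarith [hab.1]
  have hcneg : c b < 0 := by linarith
  have haneg : a b < 0 := by linarith
  have hcabs : |c b| = - c b := abs_of_neg hcneg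
  have haabs : |a b| = - a b := abs_of_neg haneg
  refine ⟨hcneg, haneg, ?_, ?_, ?_, ?_⟩
  · rw [hcabs, haabs, div_mul_eq_mul_div, div_le_iff₀ hst]
    have e1 : 97 / 100 * U ≤ - c b := by linarith
    have e2 : Real.sqrt t * (97 / 100 * U) ≤ Real.sqrt t * - c b :=
      mul_le_mul_of_nonneg_left e1 hst.le
    have e3 : g0 / 2 * - a b ≤ g0 / 2 * (51 / 50 * V) :=
      mul_le_mul_of_nonneg_left (by linarith) (by positivity)
    have e4 : 0 ≤ g0 * V := by positivity
    linarith
  · rw [hcabs, haabs]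
    have hbs : 0 < b - s0 := by linarith
    have e1 : (b - s0) * V ≤ (b - s0) * (50 / 49 * - a b) :=
      mul_le_mul_of_nonneg_left (by linarith) hbs.le
    have e2 : 0 ≤ (b - s0) * - a b := mul_nonneg hbs.le (by linarith)
    linarith
  · rw [haabs]
    have e : η / 8 * t = t * η / 8 := by ring
    rw [e]
    have := Real.exp_pos (t * η / 8)
    linarith
  · intro s hs
    have e1 := abs_le.1 (hA s hs)
    have e2 : T L s0 1 s ≤ U := by
      have e : U = T L s0 1 s + ∫ σ in s..b, J L s0 1 σ := by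
        rw [hUd, T_eq, T_eq, intervalIntegral.integral_add_adjacent_intervals]
        · exact (J_cont s0 (continuous_iff_continuousAt.2 fun s => (hL s).continuousAt)
            continuous_const).intervalIntegrable _ _
        · exact (J_cont s0 (continuous_iff_continuousAt.2 fun s => (hL s).continuousAt)
            continuous_const).intervalIntegrable _ _
      have e2 : 0 ≤ ∫ σ in s..b, J L s0 1 σ := by
        apply intervalIntegral.integral_nonneg hs.2
        intro σ hσ
        exact J_nonneg (hs.1.trans hσ.1) (fun r _ => zero_le_one)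
      linarith
    have e3 : 0 ≤ T L s0 1 s := T_nonneg hs.1 (fun r _ => zero_le_one)
    rw [hcabs, abs_le]
    constructor <;> linarith

end Pool.Agent.W977.LG
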