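import Pool.Agent.W550.LG.StmV

/-!
# Elementary properties of the operator `T` and of its derivative `J`
-/

open Set MeasureTheory Pool.Agent.W550.LG

namespace Pool.Agent.W977.LG

/-- The derivative of `T L al f`. -/
noncomputable def J (L : ℝ → ℝ) (al : ℝ) (f : ℝ → ℝ) (s : ℝ) : ℝ :=
  ∫ r in al..s, Real.exp (L s - L r) * f r

theorem T_eq (L : ℝ → ℝ) (al : ℝ) (f : ℝ → ℝ) (s : ℝ) :
    T L al f s = ∫ σ in al..s, J L al f σ := rfl

theorem J_eq (L f : ℝ → ℝ) (al s : ℝ) :
    J L al f s = Real.exp (L s) * ∫ r in al..s, Real.exp (-L r) * f r := by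
  unfold J
  rw [← intervalIntegral.integral_const_mul]
  congr 1
  ext r
  rw [← mul_assoc, ← Real.exp_add, sub_eq_add_neg]

theorem J_cont {L f : ℝ → ℝ} (al : ℝ) (hL : Continuous L) (hf : Continuous f) :
    Continuous (J L al f) := by
  have h : J L al f = fun s => Real.exp (L s) * ∫ r in al..s, Real.exp (-L r) * f r := by
    funext s
    exact J_eq L f al s
  rw [h]
  have h2 : Continuous fun r => Real.exp (-L r) * f r := by fun_prop
  exact (Real.continuous_exp.comp hL).mul
    (intervalIntegral.continuous_primitive (fun a b => h2.intervalIntegrable a b) al)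

theorem T_cont {L f : ℝ → ℝ} (al : ℝ) (hL : Continuous L) (hf : Continuous f) :
    Continuous (T L al f) := by
  have h2 := J_cont al hL hf
  exact intervalIntegral.continuous_primitive (fun a b => h2.intervalIntegrable a b) al

theorem J_add {L f g : ℝ → ℝ} (al s : ℝ) (hL : Continuous L) (hf : Continuous f)
    (hg : Continuous g) : J L al (fun r => f r + g r) s = J L al f s + J L al g s := by
  unfold J
  rw [← intervalIntegral.integral_add]
  · congr 1; ext r; ring
  · exact Continuous.intervalIntegrable (by fun_prop) _ _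
  · exact Continuous.intervalIntegrable (by fun_prop) _ _

theorem J_sub {L f g : ℝ → ℝ} (al s : ℝ) (hL : Continuous L) (hf : Continuous f)
    (hg : Continuous g) : J L al (fun r => f r - g r) s = J L al f s - J L al g s := by
  unfold J
  rw [← intervalIntegral.integral_sub]
  · congr 1; ext r; ring
  · exact Continuous.intervalIntegrable (by fun_prop) _ _
  · exact Continuous.intervalIntegrable (by fun_prop) _ _

theorem J_smul {L f : ℝ → ℝ} (al s u : ℝ) :
    J L al (fun r => u * f r) s = u * J L al f s := by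
  unfold J
  rw [← intervalIntegral.integral_const_mul]
  congr 1; ext r; ring

theorem J_mono {L f g : ℝ → ℝ} {al s : ℝ} (hL : Continuous L) (hf : Continuous f)
    (hg : Continuous g) (h : al ≤ s) (hfg : ∀ r ∈ Icc al s, f r ≤ g r) :
    J L al f s ≤ J L al g s := by
  unfold J
  apply intervalIntegral.integral_mono_on h
  · exact Continuous.intervalIntegrable (by fun_prop) _ _
  · exact Continuous.intervalIntegrable (by fun_prop) _ _
  · intro r hr
    exact mul_le_mul_of_nonneg_left (hfg r hr) (Real.exp_pos _).le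

theorem J_nonneg {L f : ℝ → ℝ} {al s : ℝ} (h : al ≤ s) (hf : ∀ r ∈ Icc al s, 0 ≤ f r) :
    0 ≤ J L al f s := by
  unfold J
  apply intervalIntegral.integral_nonneg h
  intro r hr
  exact mul_nonneg (Real.exp_pos _).le (hf r hr)

theorem J_congr {L f g : ℝ → ℝ} {al s : ℝ} (h : al ≤ s) (hfg : ∀ r ∈ Icc al s, f r = g r) :
    J L al f s = J L al g s := by
  unfold J
  apply intervalIntegral.integral_congr
  intro r hr
  rw [uIcc_of_le h] at hr
  simp only [hfg r hr]

theorem T_congr {L f g : ℝ → ℝ} {al s : ℝ} (h : al ≤ s) (hfg : ∀ r ∈ Icc al s, f r = g r) :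
    T L al f s = T L al g s := by
  rw [T_eq, T_eq]
  apply intervalIntegral.integral_congr
  intro r hr
  rw [uIcc_of_le h] at hr
  exact J_congr hr.1 (fun x hx => hfg x ⟨hx.1, hx.2.trans hr.2⟩)

theorem T_add {L f g : ℝ → ℝ} (al s : ℝ) (hL : Continuous L) (hf : Continuous f)
    (hg : Continuous g) : T L al (fun r => f r + g r) s = T L al f s + T L al g s := by
  rw [T_eq, T_eq, T_eq, ← intervalIntegral.integral_add]
  · congr 1; ext r; exact J_add al r hL hf hg
  · exact (J_cont al hL hf).intervalIntegrable _ _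
  · exact (J_cont al hL hg).intervalIntegrable _ _

theorem T_sub {L f g : ℝ → ℝ} (al s : ℝ) (hL : Continuous L) (hf : Continuous f)
    (hg : Continuous g) : T L al (fun r => f r - g r) s = T L al f s - T L al g s := by
  rw [T_eq, T_eq, T_eq, ← intervalIntegral.integral_sub]
  · congr 1; ext r; exact J_sub al r hL hf hg
  · exact (J_cont al hL hf).intervalIntegrable _ _
  · exact (J_cont al hL hg).intervalIntegrable _ _

theorem T_smul {L f : ℝ → ℝ} (al s u : ℝ) :
    T L al (fun r => u * f r) s = u * T L al f s := by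
  rw [T_eq, T_eq, ← intervalIntegral.integral_const_mul]
  congr 1; ext r; exact J_smul al r u

theorem T_mono {L f g : ℝ → ℝ} {al s : ℝ} (hL : Continuous L) (hf : Continuous f)
    (hg : Continuous g) (h : al ≤ s) (hfg : ∀ r ∈ Icc al s, f r ≤ g r) :
    T L al f s ≤ T L al g s := by
  rw [T_eq, T_eq]
  apply intervalIntegral.integral_mono_on h
  · exact (J_cont al hL hf).intervalIntegrable _ _
  · exact (J_cont al hL hg).intervalIntegrable _ _
  · intro r hr
    exact J_mono hL hf hg hr.1 (fun x hx => hfg x ⟨hx.1, hx.2.trans hr.2⟩)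

theorem T_nonneg {L f : ℝ → ℝ} {al s : ℝ} (h : al ≤ s) (hf : ∀ r ∈ Icc al s, 0 ≤ f r) :
    0 ≤ T L al f s := by
  rw [T_eq]
  apply intervalIntegral.integral_nonneg h
  intro r hr
  exact J_nonneg hr.1 (fun x hx => hf x ⟨hx.1, hx.2.trans hr.2⟩)

theorem J_abs_le {L f g : ℝ → ℝ} {al s : ℝ} (hL : Continuous L) (hf : Continuous f)
    (hg : Continuous g) (h : al ≤ s) (hfg : ∀ r ∈ Icc al s, |f r| ≤ g r) :
    |J L al f s| ≤ J L al g s := by
  rw [abs_le]
  constructor
  · have h1 := J_mono (f := fun r => (-1) * g r) (g := f) hL (by fun_prop) hf h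
      (fun r hr => by have := (abs_le.1 (hfg r hr)).1; linarith)
    rw [J_smul] at h1
    linarith
  · exact J_mono hL hf hg h (fun r hr => (abs_le.1 (hfg r hr)).2)

theorem T_abs_le {L f g : ℝ → ℝ} {al s : ℝ} (hL : Continuous L) (hf : Continuous f)
    (hg : Continuous g) (h : al ≤ s) (hfg : ∀ r ∈ Icc al s, |f r| ≤ g r) :
    |T L al f s| ≤ T L al g s := by
  rw [abs_le]
  constructor
  · have h1 := T_mono (f := fun r => (-1) * g r) (g := f) hL (by fun_prop) hf h
      (fun r hr => by have := (abs_le.1 (hfg r hr)).1; linarith)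
    rw [T_smul] at h1
    linarith
  · exact T_mono hL hf hg h (fun r hr => (abs_le.1 (hfg r hr)).2)

end Pool.Agent.W977.LG
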