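import Pool.Agent.W988.RA.Defs

/-!
Project RA (helper988), part SYM: Jensen for the determinant.
-/

set_option autoImplicit false

open MeasureTheory
open scoped ENNReal BigOperators

namespace Pool.Agent.W977.RA_SYM

open Pool.Agent.W988.RA

theorem sum_prod {n : ℕ} (a b : Fin n → ℝ) :
    ∑ σ : Fin n → Bool, ∏ i, (a i + sg σ i * b i) = 2 ^ n * ∏ i, a i := by
  have h1 : ∏ i : Fin n, ∑ c : Bool, (a i + (if c then 1 else -1) * b i) =
      ∑ σ : Fin n → Bool, ∏ i, (a i + (if σ i then 1 else -1) * b i) := by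
    rw [Finset.prod_univ_sum]
    rw [Fintype.piFinset_univ]
  unfold sg
  rw [← h1]
  have h2 : ∀ i : Fin n, ∑ c : Bool, (a i + (if c then 1 else -1) * b i) = 2 * a i := by
    intro i
    rw [Fintype.sum_bool]
    simp
    ring
  rw [Finset.prod_congr rfl (fun i _ => h2 i), Finset.prod_mul_distrib]
  simp

theorem det_eq {n : ℕ} (M : MM n) :
    Matrix.det (Matrix.of M) = ∑ π : Equiv.Perm (Fin n),
      (((Equiv.Perm.sign π : ℤˣ) : ℤ) : ℝ) * ∏ i, M i (π i) := by
  rw [← Matrix.det_transpose, Matrix.det_apply']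
  rfl

theorem sum_det {n : ℕ} (M0 D : MM n) :
    ∑ σ : Fin n → Bool, Matrix.det (Matrix.of (M0 + fun k j => sg σ k * D k j)) =
      2 ^ n * Matrix.det (Matrix.of M0) := by
  simp only [det_eq]
  rw [Finset.sum_comm, Finset.mul_sum]
  refine Finset.sum_congr rfl fun π _ => ?_
  rw [← Finset.mul_sum]
  have h1 := sum_prod (fun i => M0 i (π i)) (fun i => D i (π i))
  simp only [Pi.add_apply]
  rw [h1]
  ring

theorem jensen {n m : ℕ} (M0 D : MM n) :
    2 ^ n * dtm M0 ^ m ≤ ∑ σ : Fin n → Bool, dtm (M0 + fun k j => sg σ k * D k j) ^ m := by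
  have hpos : (0 : ℝ) < 2 ^ n := by positivity
  have hcard : ∑ _σ : Fin n → Bool, (1 / 2 ^ n : ℝ) = 1 := by
    rw [Finset.sum_const, nsmul_eq_mul, Finset.card_univ]
    simp
  have h1 := Real.pow_arith_mean_le_arith_mean_pow (Finset.univ : Finset (Fin n → Bool))
    (fun _ => (1 / 2 ^ n : ℝ)) (fun σ => dtm (M0 + fun k j => sg σ k * D k j))
    (fun _ _ => by positivity) hcard (fun _ _ => abs_nonneg _) m
  have h2 : dtm M0 ≤ ∑ σ : Fin n → Bool, (1 / 2 ^ n : ℝ) *
      dtm (M0 + fun k j => sg σ k * D k j) := by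
    have h3 := sum_det M0 D
    have h4 : Matrix.det (Matrix.of M0) = (1 / 2 ^ n : ℝ) *
        ∑ σ : Fin n → Bool, Matrix.det (Matrix.of (M0 + fun k j => sg σ k * D k j)) := by
      rw [h3]
      field_simp
    unfold dtm
    rw [h4, abs_mul, abs_of_pos (by positivity : (0:ℝ) < 1 / 2 ^ n), ← Finset.mul_sum]
    refine mul_le_mul_of_nonneg_left ?_ (by positivity)
    exact Finset.abs_sum_le_sum_abs _ _
  have h5 : dtm M0 ^ m ≤ ∑ σ : Fin n → Bool, (1 / 2 ^ n : ℝ) *
      dtm (M0 + fun k j => sg σ k * D k j) ^ m :=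
    (pow_le_pow_left₀ (abs_nonneg _) h2 m).trans h1
  rw [← Finset.mul_sum] at h5
  calc 2 ^ n * dtm M0 ^ m ≤ 2 ^ n * ((1 / 2 ^ n : ℝ) * ∑ σ : Fin n → Bool,
        dtm (M0 + fun k j => sg σ k * D k j) ^ m) := mul_le_mul_of_nonneg_left h5 hpos.le
    _ = _ := by field_simp

theorem mp_flip {n : ℕ} (σ : Fin n → Bool) :
    MeasurePreserving (fun (D : MM n) k j => sg σ k * D k j) volume volume := by
  have h1 : ∀ k : Fin n, MeasurePreserving (fun x : ℝ => sg σ k * x) volume volume := by
    intro k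
    unfold sg
    by_cases h : σ k
    · simp only [h, if_true, one_mul]
      exact MeasurePreserving.id volume
    · simp only [h]
      have h2 : (fun x : ℝ => (if false = true then (1:ℝ) else -1) * x) = fun x => -x := by
        funext x
        simp
      rw [h2]
      exact Measure.measurePreserving_neg volume
  have h2 : ∀ k : Fin n, MeasurePreserving (fun (x : Fin n → ℝ) j => sg σ k * x j)
      volume volume := fun k => volume_preserving_pi (fun _ => h1 k)
  exact volume_preserving_pi (f := fun k (x : Fin n → ℝ) j => sg σ k * x j) h2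

theorem cont_dtm {n : ℕ} : Continuous (fun M : MM n => dtm M) := by
  unfold dtm
  refine continuous_abs.comp ?_
  simp only [det_eq]
  refine continuous_finsetSum _ fun π _ => continuous_const.mul ?_
  refine continuous_finsetProd _ fun i _ => ?_
  exact (continuous_apply _).comp (continuous_apply _)

theorem result : S_SYM := by
  intro n m S _ hS hinv M0
  set G : MM n → ℝ≥0∞ := fun D => ENNReal.ofReal (dtm (M0 + D) ^ m) with hG
  have mG : Measurable G := by
    have : Continuous (fun D : MM n => dtm (M0 + D) ^ m) :=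
      (cont_dtm.comp (continuous_const.add continuous_id)).pow m
    exact ENNReal.measurable_ofReal.comp this.measurable
  have hflip : ∀ σ : Fin n → Bool,
      ∫⁻ D in S, G (fun k j => sg σ k * D k j) = ∫⁻ D in S, G D := by
    intro σ
    have h1 : (fun (D : MM n) k j => sg σ k * D k j) ⁻¹' S = S := by
      ext D
      constructor
      · intro hD
        have h2 := hinv σ _ hD
        have h3 : (fun k j => sg σ k * (fun (k : Fin n) (j : Fin n) => sg σ k * D k j) k j) = D := by
          funext k j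
          show sg σ k * (sg σ k * D k j) = D k j
          have h4 : sg σ k * sg σ k = 1 := by
            unfold sg
            split_ifs <;> norm_num
          rw [← mul_assoc, h4, one_mul]
        rwa [h3] at h2
      · intro hD
        exact hinv σ D hD
    have h2 := (mp_flip σ).setLIntegral_comp_preimage hS mG
    rw [h1] at h2
    exact h2
  have hsum : ∑ σ : Fin n → Bool, ∫⁻ D in S, G (fun k j => sg σ k * D k j) =
      2 ^ n * ∫⁻ D in S, G D := by
    rw [Finset.sum_congr rfl (fun σ _ => hflip σ), Finset.sum_const, nsmul_eq_mul,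
      Finset.card_univ]
    simp
  have hpt : ∀ D : MM n, 2 ^ n * ENNReal.ofReal (dtm M0 ^ m) ≤
      ∑ σ : Fin n → Bool, G (fun k j => sg σ k * D k j) := by
    intro D
    have h1 := jensen (m := m) M0 D
    have h2 : (2 : ℝ≥0∞) ^ n = ENNReal.ofReal (2 ^ n) := by
      rw [ENNReal.ofReal_pow (by norm_num)]
      simp
    rw [h2, ← ENNReal.ofReal_mul (by positivity)]
    refine (ENNReal.ofReal_le_ofReal h1).trans (le_of_eq ?_)
    have h3 : ∀ σ ∈ (Finset.univ : Finset (Fin n → Bool)),
        0 ≤ dtm (M0 + fun k j => sg σ k * D k j) ^ m := fun σ _ => pow_nonneg (abs_nonneg _) _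
    exact ENNReal.ofReal_sum_of_nonneg h3
  have hmain : 2 ^ n * (ENNReal.ofReal (dtm M0 ^ m) * volume S) ≤ 2 ^ n * ∫⁻ D in S, G D := by
    have hm : ∀ σ ∈ (Finset.univ : Finset (Fin n → Bool)),
        Measurable (fun D : MM n => G (fun k j => sg σ k * D k j)) :=
      fun σ _ => mG.comp (mp_flip σ).measurable
    rw [← hsum, ← lintegral_finsetSum _ hm]
    calc 2 ^ n * (ENNReal.ofReal (dtm M0 ^ m) * volume S)
        = ∫⁻ _D in S, 2 ^ n * ENNReal.ofReal (dtm M0 ^ m) := by
          rw [setLIntegral_const, mul_assoc]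
      _ ≤ _ := lintegral_mono hpt
  have h0 : (2 : ℝ≥0∞) ^ n ≠ 0 := by positivity
  have ht : (2 : ℝ≥0∞) ^ n ≠ ∞ := ENNReal.pow_ne_top (by norm_num)
  exact (ENNReal.mul_le_mul_iff_right h0 ht).1 hmain

end Pool.Agent.W977.RA_SYM
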